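import Pool.Agent.Lib.MP_bdb4fe_an.G3.FIN3

/-!
Non-autonomous basins of sequences of automorphisms of `ℂ²` with `D ^ 3 < C`.
-/

set_option autoImplicit false

namespace Pool.Agent.Results.MP_bdb4fe_an.CubicPinching

open Filter Topology

/-- `ℂ²` with the Euclidean norm -/
abbrev C2 := EuclideanSpace ℂ (Fin 2)

/-- `f` is a holomorphic automorphism of `ℂ²` -/
def IsAut (f : C2 → C2) : Prop :=
  Differentiable ℂ f ∧ ∃ g : C2 → C2, Differentiable ℂ g ∧ (∀ z, g (f z) = z) ∧ ∀ z, f (g z) = z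

/-- the non-autonomous basin of attraction of the origin of the sequence `f` of self-maps of
`ℂ²`: the points whose orbits `x (n + 1) = f n (x n)` tend to the origin -/
def Basin (f : ℕ → C2 → C2) : Set C2 :=
  {z | ∀ x : ℕ → C2, x 0 = z → (∀ n, x (n + 1) = f n (x n)) → Tendsto x atTop (𝓝 0)}

/-- Let `0 < C`, `D < 1` and `D ^ 3 < C`. For every sequence `f` of holomorphic automorphisms of
`ℂ²` with `C ‖z‖ ≤ ‖f n z‖ ≤ D ‖z‖` on the unit ball and every point `p` of the basin there is an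
injective entire map `Φ` of `ℂ²` onto the basin with `Φ 0 = p`. -/
theorem result : ∀ C D : ℝ, 0 < C → D < 1 → D ^ 3 < C → ∀ f : ℕ → C2 → C2,
    (∀ n, IsAut (f n)) →
    (∀ n z, ‖z‖ < 1 → C * ‖z‖ ≤ ‖f n z‖ ∧ ‖f n z‖ ≤ D * ‖z‖) →
    ∀ p ∈ Basin f, ∃ Φ : C2 → C2, Differentiable ℂ Φ ∧ Function.Injective Φ ∧
      Set.range Φ = Basin f ∧ Φ 0 = p := by
  intro C D hC0 hD1 hD3 f hf hb p hp
  choose h1 g hg h2 h3 using hf
  have hCD : C ≤ D := by
    have h4 := hb 0 ((1 / 2 : ℂ) • (EuclideanSpace.single 0 1 : C2)) (by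
      rw [norm_smul]; simp; norm_num)
    have h5 : ‖(1 / 2 : ℂ) • (EuclideanSpace.single 0 1 : C2)‖ = 1 / 2 := by
      rw [norm_smul]; simp
    rw [h5] at h4
    linarith [h4.1, h4.2]
  let e : ℕ → (C2 ≃ C2) := fun n => ⟨f n, g n, h2 n, h3 n⟩
  obtain ⟨φ, ψ, a1, _, a3, a4, a5⟩ := Pool.Agent.Lib.MP_bdb4fe_an.G3.final C D hC0 hCD hD1 hD3
    e (fun n => ⟨h1 n, hg n⟩) hb f (fun n x => rfl)
  refine ⟨fun z => φ (z + ψ p), a1.comp (differentiable_id.add_const _), ?_, ?_, ?_⟩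
  · intro z z' h
    have h6 : ψ (φ (z + ψ p)) = ψ (φ (z' + ψ p)) := congrArg ψ h
    rw [a4, a4] at h6
    exact add_right_cancel h6
  · refine Set.Subset.antisymm ?_ ?_
    · rintro _ ⟨z, rfl⟩
      have : φ (z + ψ p) ∈ Set.range φ := ⟨_, rfl⟩
      rw [a3] at this
      exact this
    · intro w hw
      have : w ∈ Set.range φ := by rw [a3]; exact hw
      obtain ⟨z, rfl⟩ := this
      exact ⟨z - ψ p, by simp⟩
  · show φ (0 + ψ p) = p
    rw [zero_add]
    exact a5 p hp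

end Pool.Agent.Results.MP_bdb4fe_an.CubicPinching
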