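import Pool.Agent.Lib.MP_bdb4fe_an.FIN

/-!
Non-autonomous basins of sequences of quadratic shears composed with diagonal linear maps.
-/

set_option autoImplicit false

namespace Pool.Agent.Results.MP_bdb4fe_an.ShearSequences

open Filter Topology

/-- the non-autonomous basin of attraction of the origin of the sequence `f` of self-maps of
`ℂ²`: the points whose orbits `x (n + 1) = f n (x n)` tend to the origin -/
def Basin (f : ℕ → ℂ × ℂ → ℂ × ℂ) : Set (ℂ × ℂ) :=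
  {z | ∀ x : ℕ → ℂ × ℂ, x 0 = z → (∀ n, x (n + 1) = f n (x n)) → Tendsto x atTop (𝓝 0)}

/-- Let `0 < α < 1`, `0 < β ≤ α²` and `α⁷ < β²`. Let
`f n (z, w) = (a n z + p n w², b n w + q n z²)` with `{‖a n‖, ‖b n‖} = {α, β}` (in either order,
depending on `n` arbitrarily), `p n = 0` or `q n = 0`, and `p`, `q` bounded. Then for every point
`x` of the basin there is an injective entire map `Φ` of `ℂ²` onto the basin with `Φ 0 = x`. -/
theorem result : ∀ α β K : ℝ, 0 < α → α < 1 → 0 < β → β ≤ α ^ 2 → α ^ 7 < β ^ 2 →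
    ∀ a b p q : ℕ → ℂ, (∀ n, (‖a n‖ = α ∧ ‖b n‖ = β) ∨ (‖a n‖ = β ∧ ‖b n‖ = α)) →
      (∀ n, p n = 0 ∨ q n = 0) → (∀ n, ‖p n‖ ≤ K) → (∀ n, ‖q n‖ ≤ K) →
      ∀ f : ℕ → ℂ × ℂ → ℂ × ℂ,
        (∀ n z w, f n (z, w) = (a n * z + p n * w ^ 2, b n * w + q n * z ^ 2)) →
        ∀ x ∈ Basin f, ∃ Φ : ℂ × ℂ → ℂ × ℂ, Differentiable ℂ Φ ∧ Function.Injective Φ ∧
          Set.range Φ = Basin f ∧ Φ 0 = x := by
  intro α β K hα0 hα1 hβ0 hβα hβ2 a b p q hab hpq hp hq f hf x hx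
  obtain ⟨φ, ψ, h1, _, h3, h4, h5⟩ := Pool.Agent.Lib.MP_bdb4fe_an.final α β K hβ0 hβα hα0 hα1 hβ2
    a b p q hab hpq hp hq f hf
  refine ⟨fun z => φ (z + ψ x), h1.comp (differentiable_id.add_const _), ?_, ?_, ?_⟩
  · intro z z' h
    have h6 : ψ (φ (z + ψ x)) = ψ (φ (z' + ψ x)) := congrArg ψ h
    rw [h4, h4] at h6
    exact add_right_cancel h6
  · refine Set.Subset.antisymm ?_ ?_
    · rintro _ ⟨z, rfl⟩
      have : φ (z + ψ x) ∈ Set.range φ := ⟨_, rfl⟩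
      rw [h3] at this
      exact this
    · intro w hw
      have : w ∈ Set.range φ := by rw [h3]; exact hw
      obtain ⟨z, rfl⟩ := this
      exact ⟨z - ψ x, by simp⟩
  · show φ (0 + ψ x) = x
    rw [zero_add]
    exact h5 x hx

end Pool.Agent.Results.MP_bdb4fe_an.ShearSequences
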